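import Mathlib

set_option autoImplicit false

namespace Pool.Agent.K9h98.GM

/-- Martin's axiom for `σ`-centred partial orders and `ℵ₁` dense sets: if `P` is a (non-empty)
pre-ordered set that is a union of countably many centred pieces (any finitely many elements with
the same value of `c` have a common lower bound), and `D j`, `j ∈ J`, `|J| ≤ ℵ₁`, are dense
subsets of `P`, then some filter in `P` meets every `D j`. -/
def MASigmaCentred : Prop :=
  ∀ (P : Type) [Preorder P] [Nonempty P] (c : P → ℕ),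
    (∀ (n : ℕ) (s : Finset P), (∀ p ∈ s, c p = n) → ∃ r : P, ∀ p ∈ s, r ≤ p) →
    ∀ (J : Type) (D : J → Set P), Cardinal.mk J ≤ Cardinal.aleph 1 →
      (∀ (j : J) (p : P), ∃ q ∈ D j, q ≤ p) →
      ∃ F : Set P, F.Nonempty ∧ (∀ p ∈ F, ∀ q : P, p ≤ q → q ∈ F) ∧
        (∀ p ∈ F, ∀ q ∈ F, ∃ r ∈ F, r ≤ p ∧ r ≤ q) ∧ ∀ j : J, (F ∩ D j).Nonempty

/-- Conditions: a finite sequence `s 0, …, s (n-1)` of elements of `Q` (the values of `s` from `n`
on are irrelevant) and a finite set `F` of indices. -/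
structure Cond (Q I : Type) (R : I → ℕ → (ℕ → Q) → Prop) where
  n : ℕ
  s : ℕ → Q
  F : Finset I
  h : ∀ γ ∈ F, R γ n s

variable {Q I : Type} [AddCommGroup Q]

/-- The order of the conditions. -/
def Cond.pre (hat : Q →+ (I → ℤ)) (R : I → ℕ → (ℕ → Q) → Prop) : Preorder (Cond Q I R) where
  le p' p := p.n ≤ p'.n ∧ (∀ i < p.n, p'.s i = p.s i) ∧ p.F ⊆ p'.F ∧
    ∀ i, p.n ≤ i → i < p'.n → ∀ γ ∈ p.F, hat (p'.s i) γ = 0
  le_refl p := ⟨le_rfl, fun _ _ => rfl, Finset.Subset.refl _, fun i h1 h2 => by omega⟩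
  le_trans a b c hab hbc := by
    obtain ⟨h1, h2, h3, h4⟩ := hab
    obtain ⟨k1, k2, k3, k4⟩ := hbc
    refine ⟨k1.trans h1, fun i hi => ?_, k3.trans h3, fun i hi1 hi2 γ hγ => ?_⟩
    · rw [h2 i (by omega), k2 i hi]
    · by_cases hb : i < b.n
      · rw [h2 i hb]; exact k4 i hi1 hb γ hγ
      · exact h4 i (by omega) hi2 γ (k3 hγ)

theorem generic (hMA : MASigmaCentred) [Countable Q] (hI : Cardinal.mk I ≤ Cardinal.aleph 1)
    (hat : Q →+ (I → ℤ)) (R : I → ℕ → (ℕ → Q) → Prop)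
    (hR : ∀ γ n s s', (∀ i < n, s i = s' i) → R γ n s → R γ n s')
    (hR0 : ∀ γ n s, R γ n s → s n = 0 → R γ (n + 1) s)
    (hD : ∀ (γ : I) (p : Cond Q I R), ∃ p' : Cond Q I R, (Cond.pre hat R).le p' p ∧ γ ∈ p'.F)
    (J : Type) (hJ : Cardinal.mk J ≤ Cardinal.aleph 1) (E : J → Set (Cond Q I R))
    (hE : ∀ (j : J) (p : Cond Q I R), ∃ p' ∈ E j, (Cond.pre hat R).le p' p) :
    ∃ q : ℕ → Q, (∀ γ, ∃ n, R γ n q ∧ ∀ i, n ≤ i → hat (q i) γ = 0) ∧
      ∀ j, ∃ p ∈ E j, ∀ i < p.n, p.s i = q i := by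
  classical
  letI : Preorder (Cond Q I R) := Cond.pre hat R
  haveI : Nonempty (Cond Q I R) := ⟨⟨0, fun _ => 0, ∅, by simp⟩⟩
  have hle : ∀ p' p : Cond Q I R, p' ≤ p ↔ (p.n ≤ p'.n ∧ (∀ i < p.n, p'.s i = p.s i) ∧
    p.F ⊆ p'.F ∧ ∀ i, p.n ≤ i → i < p'.n → ∀ γ ∈ p.F, hat (p'.s i) γ = 0) := fun _ _ => Iff.rfl
  -- code
  obtain ⟨e, he⟩ : ∃ e : (Σ n : ℕ, (Fin n → Q)) → ℕ, Function.Injective e :=
    exists_injective_nat _
  -- density of long conditions
  have hlong : ∀ (m : ℕ) (p : Cond Q I R), ∃ p' : Cond Q I R, m ≤ p'.n ∧ p' ≤ p := by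
    intro m
    induction m with
    | zero => intro p; exact ⟨p, Nat.zero_le _, le_rfl⟩
    | succ m ih =>
      intro p
      obtain ⟨p', h1, h2⟩ := ih p
      refine ⟨⟨p'.n + 1, Function.update p'.s p'.n 0, p'.F, fun γ hγ => ?_⟩, by simp; omega, ?_⟩
      · apply hR0
        · refine hR γ p'.n p'.s _ (fun i hi => ?_) (p'.h γ hγ)
          rw [Function.update_of_ne (by omega)]
        · simp
      · refine le_trans ?_ h2
        rw [hle]
        refine ⟨by simp, fun i hi => ?_, Finset.Subset.refl _, fun i h3 h4 γ _ => ?_⟩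
        · simp only
          rw [Function.update_of_ne (by omega)]
        · simp only at h4 ⊢
          have : i = p'.n := by omega
          subst this
          simp
  obtain ⟨𝓕, -, -, hdir, hmeet⟩ := hMA (Cond Q I R)
    (fun p => e ⟨p.n, fun i : Fin p.n => p.s i⟩)
    (by
      intro k t ht
      rcases t.eq_empty_or_nonempty with rfl | ⟨p0, hp0⟩
      · exact ⟨Classical.arbitrary _, by simp⟩
      · have hsame : ∀ p ∈ t, p.n = p0.n ∧ ∀ i < p.n, p.s i = p0.s i := by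
          intro p hp
          have h1 := he ((ht p hp).trans (ht p0 hp0).symm)
          obtain ⟨pn, ps, pF, ph⟩ := p
          obtain ⟨qn, qs, qF, qh⟩ := p0
          simp only [Sigma.mk.injEq] at h1
          obtain ⟨h2, h3⟩ := h1
          subst h2
          refine ⟨rfl, fun i hi => ?_⟩
          exact congrFun (eq_of_heq h3) ⟨i, hi⟩
        refine ⟨⟨p0.n, p0.s, t.biUnion (fun p => p.F), fun γ hγ => ?_⟩, fun p hp => ?_⟩
        · obtain ⟨p, hp, hγp⟩ := Finset.mem_biUnion.mp hγ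
          obtain ⟨h1, h2⟩ := hsame p hp
          rw [← h1]
          exact hR γ p.n p.s _ h2 (p.h γ hγp)
        · obtain ⟨h1, h2⟩ := hsame p hp
          rw [hle]
          refine ⟨by simp [h1], fun i hi => (h2 i hi).symm,
            Finset.subset_biUnion_of_mem (fun p => p.F) hp, fun i h3 h4 => ?_⟩
          simp only at h4
          omega)
    (I ⊕ (ℕ ⊕ J))
    (fun x => match x with
      | Sum.inl γ => {p | γ ∈ p.F}
      | Sum.inr (Sum.inl m) => {p | m ≤ p.n}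
      | Sum.inr (Sum.inr j) => E j)
    (by
      have hal : Cardinal.aleph0 ≤ Cardinal.aleph 1 := Cardinal.aleph0_le_aleph 1
      simp only [Cardinal.mk_sum, Cardinal.lift_id, Cardinal.mk_nat]
      refine Cardinal.add_le_of_le hal hI ?_
      exact Cardinal.add_le_of_le hal (by simpa using hal) hJ)
    (by
      rintro (γ | m | j) p
      · obtain ⟨p', h1, h2⟩ := hD γ p
        exact ⟨p', h2, h1⟩
      · obtain ⟨p', h1, h2⟩ := hlong m p
        exact ⟨p', h1, h2⟩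
      · exact hE j p)
  have hlen : ∀ i : ℕ, ∃ p ∈ 𝓕, i < p.n := by
    intro i
    obtain ⟨p, h1, h2⟩ := hmeet (Sum.inr (Sum.inl (i + 1)))
    exact ⟨p, h1, h2⟩
  choose P hPF hPn using hlen
  have hq : ∀ p ∈ 𝓕, ∀ i < p.n, p.s i = (P i).s i := by
    intro p hp i hi
    obtain ⟨r, -, h1, h2⟩ := hdir p hp (P i) (hPF i)
    rw [← h1.2.1 i hi, ← h2.2.1 i (hPn i)]
  refine ⟨fun i => (P i).s i, fun γ => ?_, fun j => ?_⟩
  · obtain ⟨p, h1, h2⟩ := hmeet (Sum.inl γ)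
    have h2' : γ ∈ p.F := h2
    refine ⟨p.n, hR γ p.n p.s _ (hq p h1) (p.h γ h2'), fun i hi => ?_⟩
    obtain ⟨r, hr, h3, h4⟩ := hdir p h1 (P i) (hPF i)
    have h5 := h3.2.2.2 i hi (lt_of_lt_of_le (hPn i) h4.1) γ h2'
    rw [h4.2.1 i (hPn i)] at h5
    exact h5
  · obtain ⟨p, h1, h2⟩ := hmeet (Sum.inr (Sum.inr j))
    exact ⟨p, h2, hq p h1⟩

end Pool.Agent.K9h98.GM
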