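import Mathlib
import Pool.Agent.K9h98.GM.Defs
import Pool.Agent.Helper75.GS.Defs

set_option autoImplicit false

namespace Pool.Agent.K9h98.GM

open Pool.Agent.Helper75.GS

variable {Q I : Type} [AddCommGroup Q]

/-- The values at `γ` and at a finite set not containing `γ` can be prescribed: `z` and `0`. -/
def Sep (hat : Q →+ (I → ℤ)) : Prop :=
  ∀ (F : Finset I) (γ : I), γ ∉ F → ∀ z : ℤ, ∃ q : Q, hat q γ = z ∧ ∀ δ ∈ F, hat q δ = 0

theorem rep_of_ker (hat : Q →+ (I → ℤ)) (hS : Sep hat) (h : Q → ℤ)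
    (hadd : ∀ q q', h (q + q') = h q + h q') (F : Finset I)
    (hker : ∀ q, (∀ γ ∈ F, hat q γ = 0) → h q = 0) :
    ∃ a : I → ℤ, ∀ q, h q = ∑ γ ∈ F, a γ * hat q γ := by
  classical
  let H : Q →+ ℤ := AddMonoidHom.mk' h hadd
  have hH : ∀ q, H q = h q := fun _ => rfl
  have h1 : ∀ γ : I, ∃ q : Q, hat q γ = 1 ∧ ∀ δ ∈ F.erase γ, hat q δ = 0 :=
    fun γ => hS (F.erase γ) γ (Finset.notMem_erase γ F) 1
  choose e he1 he0 using h1
  refine ⟨fun γ => h (e γ), fun q => ?_⟩
  have h2 : h (q - ∑ γ ∈ F, (hat q γ) • e γ) = 0 := by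
    apply hker
    intro δ hδ
    rw [map_sub, map_sum, Pi.sub_apply, Finset.sum_apply, Finset.sum_eq_single_of_mem δ hδ]
    · rw [map_zsmul, Pi.smul_apply, he1 δ]; simp
    · intro γ _ hne
      rw [map_zsmul, Pi.smul_apply, he0 γ δ (Finset.mem_erase.mpr ⟨hne.symm, hδ⟩)]; simp
  rw [← hH, map_sub, map_sum, sub_eq_zero] at h2
  rw [← hH, h2]
  refine Finset.sum_congr rfl fun γ _ => ?_
  rw [map_zsmul, smul_eq_mul, mul_comm, hH]

theorem mk_eq_iff (f g : I → ℤ) :
    (QuotientAddGroup.mk f : (I → ℤ) ⧸ Cs I) = QuotientAddGroup.mk g ↔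
      {β | f β ≠ g β}.Countable := by
  rw [eq_comm, QuotientAddGroup.eq]
  show (Function.support (-g + f)).Countable ↔ _
  have : Function.support (-g + f) = {β | f β ≠ g β} := by
    ext β
    simp only [Function.mem_support, Pi.add_apply, Pi.neg_apply, Set.mem_ofPred_eq]
    constructor
    · intro h h'; apply h; rw [h']; ring
    · intro h h'; apply h; linarith
  rw [this]

/-- If all but finitely many values vanish at every place, then the `2`-adic sum exists. -/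
theorem sum_exists (hat : Q →+ (I → ℤ)) (q : ℕ → Q)
    (hq : ∀ γ, ∃ n, ∀ i, n ≤ i → hat (q i) γ = 0) :
    ∃ f : I → ℤ, ∀ m : ℕ, ∃ g : I → ℤ,
      f = hat (∑ i ∈ Finset.range m, (2 ^ i : ℤ) • q i) + (2 ^ m : ℤ) • g := by
  choose n hn using hq
  refine ⟨fun γ => ∑ i ∈ Finset.range (n γ), 2 ^ i * hat (q i) γ, fun m => ?_⟩
  have h1 : ∀ γ, ∃ z : ℤ, ∑ i ∈ Finset.range (n γ), 2 ^ i * hat (q i) γ =
      ∑ i ∈ Finset.range m, 2 ^ i * hat (q i) γ + 2 ^ m * z := by
    intro γ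
    have h2 : ∀ N, n γ ≤ N → ∑ i ∈ Finset.range (n γ), 2 ^ i * hat (q i) γ =
        ∑ i ∈ Finset.range N, 2 ^ i * hat (q i) γ := by
      intro N hN
      refine Finset.sum_subset (by simpa using hN) ?_
      intro i _ hi
      rw [hn γ i (by simpa using hi)]; simp
    have h3 : (2 ^ m : ℤ) ∣ ∑ i ∈ Finset.Ico m (n γ + m), 2 ^ i * hat (q i) γ := by
      apply Finset.dvd_sum
      intro i hi
      exact Dvd.dvd.mul_right (pow_dvd_pow 2 (Finset.mem_Ico.mp hi).1) _
    obtain ⟨z, hz⟩ := h3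
    refine ⟨z, ?_⟩
    rw [h2 (n γ + m) (by omega), ← hz]
    rw [Finset.sum_range_add_sum_Ico _ (by omega)]
  choose g hg using h1
  refine ⟨g, ?_⟩
  funext γ
  rw [hg γ, map_sum, Pi.add_apply, Finset.sum_apply]
  simp

theorem finite_rep (hMA : MASigmaCentred) [Countable Q] (hI : Cardinal.mk I = Cardinal.aleph 1)
    (hat : Q →+ (I → ℤ)) (hS : Sep hat) (T : (I → ℤ) →+ ((I → ℤ) ⧸ Cs I))
    (τ : Q → I → ℤ) (hτ : ∀ q, T (hat q) = QuotientAddGroup.mk (τ q)) :
    {β : I | ¬ ((∀ q q', τ (q + q') β = τ q β + τ q' β) ∧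
      ∃ (F : Finset I) (a : I → ℤ), ∀ q, τ q β = ∑ γ ∈ F, a γ * hat q γ)}.Countable := by
  classical
  -- additivity
  have hbad1 : {β : I | ¬ ∀ q q', τ (q + q') β = τ q β + τ q' β}.Countable := by
    have : {β : I | ¬ ∀ q q', τ (q + q') β = τ q β + τ q' β} =
        ⋃ q : Q, ⋃ q' : Q, {β | τ (q + q') β ≠ (τ q + τ q') β} := by
      ext β; simp
    rw [this]
    refine Set.countable_iUnion fun q => Set.countable_iUnion fun q' => ?_
    rw [← mk_eq_iff, ← hτ, QuotientAddGroup.mk_add, ← hτ, ← hτ, map_add, map_add]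
  by_contra hnc
  set G : Set I := {β : I | (∀ q q', τ (q + q') β = τ q β + τ q' β) ∧
    ¬ ∃ (F : Finset I) (a : I → ℤ), ∀ q, τ q β = ∑ γ ∈ F, a γ * hat q γ} with hG
  have hGnc : ¬ G.Countable := by
    intro hc
    apply hnc
    refine (hbad1.union hc).mono ?_
    intro β hβ
    by_cases h : ∀ q q', τ (q + q') β = τ q β + τ q' β
    · right
      refine ⟨h, fun h' => hβ ⟨h, h'⟩⟩
    · left; exact h
  have hI' : Cardinal.mk I ≤ Cardinal.aleph 1 := hI.le
  obtain ⟨q, hq, hE⟩ := generic hMA hI' hat (fun _ _ _ => True) (by intros; trivial)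
    (by intros; trivial)
    (by
      intro γ p
      refine ⟨⟨p.n, p.s, insert γ p.F, by intros; trivial⟩, ⟨le_rfl, fun _ _ => rfl,
        Finset.subset_insert _ _, fun i h1 h2 => ?_⟩, Finset.mem_insert_self _ _⟩
      simp only at h2; omega)
    (I × ℤ)
    (by
      rw [Cardinal.mk_prod, Cardinal.lift_id, Cardinal.lift_id, Cardinal.mk_int]
      exact Cardinal.mul_le_of_le (Cardinal.aleph0_le_aleph 1) hI' (Cardinal.aleph0_le_aleph 1))
    (fun x => {p | x.1 ∈ G → ∃ m ≤ p.n,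
      ¬ ((2 ^ m : ℤ) ∣ (∑ i ∈ Finset.range m, 2 ^ i * τ (p.s i) x.1) - x.2)})
    (by
      rintro ⟨β, z⟩ p
      by_cases hβ : β ∈ G
      swap
      · exact ⟨p, fun h => absurd h hβ, (Cond.pre hat _).le_refl p⟩
      obtain ⟨hadd, hrep⟩ := hβ
      let H : Q →+ ℤ := AddMonoidHom.mk' (fun q => τ q β) hadd
      have h0 : τ 0 β = 0 := map_zero H
      -- a new element
      obtain ⟨q0, hq0, hq0'⟩ : ∃ q0 : Q, (∀ γ ∈ p.F, hat q0 γ = 0) ∧ τ q0 β ≠ 0 := by
        by_contra hcon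
        push Not at hcon
        obtain ⟨a, ha⟩ := rep_of_ker hat hS (fun q => τ q β) hadd p.F hcon
        exact hrep ⟨p.F, a, ha⟩
      set V : ℤ := ∑ i ∈ Finset.range p.n, 2 ^ i * τ (p.s i) β with hV
      set d : ℤ := τ q0 β with hd
      obtain ⟨m, hm1, hm2⟩ : ∃ m, p.n < m ∧ ¬ ((2 ^ m : ℤ) ∣ 2 ^ p.n * d) := by
        have hne : (2 ^ p.n * d : ℤ) ≠ 0 := mul_ne_zero (by positivity) hq0'
        refine ⟨p.n + 1 + (2 ^ p.n * d : ℤ).natAbs, by omega, fun hdvd => ?_⟩
        have h1 := Int.natAbs_dvd_natAbs.mpr hdvd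
        have h2 := Nat.le_of_dvd (Int.natAbs_pos.mpr hne) h1
        rw [Int.natAbs_pow] at h2
        have h3 : (2 ^ p.n * d : ℤ).natAbs < 2 ^ (p.n + 1 + (2 ^ p.n * d : ℤ).natAbs) :=
          lt_of_lt_of_le (Nat.lt_two_pow_self) (Nat.pow_le_pow_right (by norm_num) (by omega))
        have h4 : (2 : ℤ).natAbs = 2 := rfl
        rw [h4] at h2
        omega
      -- general extension by an element `e`
      have key : ∀ e : Q, (∀ γ ∈ p.F, hat e γ = 0) → ¬ ((2 ^ m : ℤ) ∣ (V + 2 ^ p.n * τ e β) - z) →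
          ∃ p' : Cond Q I (fun _ _ _ => True), (β ∈ G → ∃ m' ≤ p'.n,
            ¬ ((2 ^ m' : ℤ) ∣ (∑ i ∈ Finset.range m', 2 ^ i * τ (p'.s i) β) - z)) ∧
            (Cond.pre hat (fun _ _ _ => True)).le p' p := by
        intro e he hnd
        refine ⟨⟨m, fun i => if i < p.n then p.s i else if i = p.n then e else 0, p.F,
          by intros; trivial⟩, fun _ => ⟨m, le_rfl, ?_⟩, ⟨hm1.le, fun i hi => by simp [hi],
            Finset.Subset.refl _, fun i h1 h2 γ hγ => ?_⟩⟩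
        · have : (∑ i ∈ Finset.range m,
              2 ^ i * τ (if i < p.n then p.s i else if i = p.n then e else 0) β) =
              V + 2 ^ p.n * τ e β := by
            rw [← Finset.sum_range_add_sum_Ico _ (show p.n ≤ m by omega)]
            congr 1
            · refine Finset.sum_congr rfl fun i hi => ?_
              simp [Finset.mem_range.mp hi]
            · rw [Finset.sum_eq_single_of_mem p.n (Finset.mem_Ico.mpr ⟨le_rfl, hm1⟩)]
              · simp
              · intro i hi hne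
                have h1 : ¬ i < p.n := by have := (Finset.mem_Ico.mp hi).1; omega
                simp [h1, hne, h0]
          simp only
          rw [this]
          exact hnd
        · simp only
          by_cases h3 : i = p.n
          · subst h3; simp [he γ hγ]
          · have h4 : ¬ i < p.n := by omega
            simp [h3, h4]
      by_cases hcase : (2 ^ m : ℤ) ∣ V - z
      · refine key q0 hq0 ?_
        intro hdv
        apply hm2
        have := dvd_sub hdv hcase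
        have h5 : V + 2 ^ p.n * τ q0 β - z - (V - z) = 2 ^ p.n * d := by rw [hd]; ring
        rwa [h5] at this
      · refine key 0 (by simp) ?_
        rw [h0]; simpa using hcase)
  -- the function
  obtain ⟨f, hf⟩ := sum_exists hat q (fun γ => by
    obtain ⟨n, _, hn⟩ := hq γ
    exact ⟨n, hn⟩)
  obtain ⟨y, hy⟩ := QuotientAddGroup.mk_surjective (T f)
  have hbad2 : ∀ m : ℕ, {β : I | ¬ ((2 ^ m : ℤ) ∣
      (∑ i ∈ Finset.range m, 2 ^ i * τ (q i) β) - y β)}.Countable := by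
    intro m
    obtain ⟨g, hg⟩ := hf m
    obtain ⟨u, hu⟩ := QuotientAddGroup.mk_surjective (T g)
    have h1 : (QuotientAddGroup.mk y : (I → ℤ) ⧸ Cs I) =
        QuotientAddGroup.mk ((∑ i ∈ Finset.range m, (2 ^ i : ℤ) • τ (q i)) + (2 ^ m : ℤ) • u) := by
      rw [hy, hg, map_add, map_zsmul, ← hu, map_sum, map_sum]
      rw [QuotientAddGroup.mk_add, QuotientAddGroup.mk_zsmul]
      congr 1
      rw [← QuotientAddGroup.mk'_apply (N := Cs I), map_sum]
      refine Finset.sum_congr rfl fun i _ => ?_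
      rw [map_zsmul, map_zsmul, map_zsmul, hτ]
      rfl
    rw [mk_eq_iff] at h1
    refine h1.mono ?_
    intro β hβ heq
    apply hβ
    rw [heq]
    refine ⟨- u β, ?_⟩
    simp
  have hbad2' : (⋃ m : ℕ, {β : I | ¬ ((2 ^ m : ℤ) ∣
      (∑ i ∈ Finset.range m, 2 ^ i * τ (q i) β) - y β)}).Countable :=
    Set.countable_iUnion hbad2
  obtain ⟨β, hβG, hβ2⟩ : ∃ β ∈ G, β ∉ (⋃ m : ℕ, {β : I | ¬ ((2 ^ m : ℤ) ∣
      (∑ i ∈ Finset.range m, 2 ^ i * τ (q i) β) - y β)}) := by
    by_contra hcon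
    push Not at hcon
    exact hGnc (hbad2'.mono hcon)
  obtain ⟨p, hp, hpq⟩ := hE (β, y β)
  obtain ⟨m, hm, hnd⟩ := hp hβG
  apply hβ2
  refine Set.mem_iUnion.mpr ⟨m, ?_⟩
  show ¬ _
  intro hd
  apply hnd
  have : ∑ i ∈ Finset.range m, (2 : ℤ) ^ i * τ (p.s i) (β, y β).1 =
      ∑ i ∈ Finset.range m, 2 ^ i * τ (q i) β := by
    refine Finset.sum_congr rfl fun i hi => ?_
    rw [hpq i (lt_of_lt_of_le (Finset.mem_range.mp hi) hm)]
  rw [this]
  exact hd

end Pool.Agent.K9h98.GM
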