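import Mathlib
import Pool.Agent.K9h98.GM.Rep

set_option autoImplicit false

namespace Pool.Agent.K9h98.GM

open Pool.Agent.Helper75.GS

variable {Q I : Type} [AddCommGroup Q]

/-- Every function is a locally finite sum of functions `hat q`. -/
theorem every_sum (hMA : MASigmaCentred) [Countable Q] (hI : Cardinal.mk I = Cardinal.aleph 1)
    (hat : Q →+ (I → ℤ)) (hS : Sep hat) (f : I → ℤ) :
    ∃ q : ℕ → Q, ∀ γ, ∃ n, (∑ i ∈ Finset.range n, hat (q i) γ = f γ) ∧
      ∀ i, n ≤ i → hat (q i) γ = 0 := by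
  classical
  obtain ⟨q, hq, -⟩ := generic hMA hI.le hat
    (fun γ n s => ∑ i ∈ Finset.range n, hat (s i) γ = f γ)
    (by
      intro γ n s s' h h1
      show _ = f γ
      rw [← h1]
      refine Finset.sum_congr rfl fun i hi => ?_
      rw [h i (Finset.mem_range.mp hi)])
    (by
      intro γ n s h1 h2
      show _ = f γ
      rw [Finset.sum_range_succ, h2, map_zero, ← h1]; simp)
    (by
      intro γ p
      by_cases hγ : γ ∈ p.F
      · exact ⟨p, (Cond.pre hat _).le_refl p, hγ⟩
      obtain ⟨e, he1, he2⟩ := hS p.F γ hγ (f γ - ∑ i ∈ Finset.range p.n, hat (p.s i) γ)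
      have hsum : ∀ δ, ∑ i ∈ Finset.range (p.n + 1), hat (Function.update p.s p.n e i) δ =
          ∑ i ∈ Finset.range p.n, hat (p.s i) δ + hat e δ := by
        intro δ
        rw [Finset.sum_range_succ, Function.update_self]
        congr 1
        refine Finset.sum_congr rfl fun i hi => ?_
        rw [Function.update_of_ne (by have := Finset.mem_range.mp hi; omega)]
      refine ⟨⟨p.n + 1, Function.update p.s p.n e, insert γ p.F, fun δ hδ => ?_⟩,
        ⟨by simp, fun i hi => ?_, Finset.subset_insert _ _, fun i h1 h2 δ hδ => ?_⟩,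
        Finset.mem_insert_self _ _⟩
      · show _ = f δ
        rw [hsum]
        rcases Finset.mem_insert.mp hδ with rfl | hδ
        · rw [he1]; ring
        · rw [he2 δ hδ, p.h δ hδ]; simp
      · simp only
        rw [Function.update_of_ne (by omega)]
      · simp only at h2 ⊢
        have : i = p.n := by omega
        subst this
        rw [Function.update_self]
        exact he2 δ hδ)
    Empty (by simp) (fun e => e.elim) (fun e => e.elim)
  exact ⟨q, hq⟩

theorem left_fact (m : ℕ) : ∑ j ∈ Finset.range (m + 2), (j.factorial : ℤ) ≤ 2 * ((m + 1).factorial : ℤ) := by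
  induction m with
  | zero => simp [Finset.sum_range_succ]
  | succ m ih =>
    rw [Finset.sum_range_succ]
    have h : ((m + 1 + 1).factorial : ℤ) = (m + 2) * ((m + 1).factorial : ℤ) := by
      rw [Nat.factorial_succ]; push_cast; ring
    have h' : (0 : ℤ) ≤ ((m + 1).factorial : ℤ) := by positivity
    have h'' : m + 2 = m + 1 + 1 := rfl
    rw [h''] at *
    rw [h]
    nlinarith [mul_nonneg (Int.natCast_nonneg m) h']

/-- `c · (0! + 1! + 2! + ⋯)` is not an integer. -/
theorem not_int (c z : ℤ) (hc : c ≠ 0) :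
    ∃ m : ℕ, ¬ ((m.factorial : ℤ) ∣ (∑ j ∈ Finset.range m, (j.factorial : ℤ)) * c - z) := by
  set k : ℕ := 2 * c.natAbs + z.natAbs + 2 with hk
  -- m = k + 2
  refine ⟨k + 2, fun hd => ?_⟩
  have h1 := left_fact k
  set S : ℤ := ∑ j ∈ Finset.range (k + 2), (j.factorial : ℤ) with hS
  have hS1 : ((k + 1).factorial : ℤ) ≤ S := by
    rw [hS]
    exact Finset.single_le_sum (f := fun j : ℕ => (j.factorial : ℤ))
      (fun j _ => by positivity) (Finset.mem_range.mpr (by omega))
  have hfac : ((k + 2).factorial : ℤ) = (k + 2) * ((k + 1).factorial : ℤ) := by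
    rw [Nat.factorial_succ]; push_cast; ring
  have hkf : ((k : ℤ) + 1) ≤ ((k + 1).factorial : ℤ) := by
    have := Nat.self_le_factorial (k + 1)
    exact_mod_cast this
  have hkz : (k : ℤ) = 2 * |c| + |z| + 2 := by
    rw [hk]; push_cast; simp
  have hc1 : 1 ≤ |c| := Int.one_le_abs hc
  have hz0 : 0 ≤ |z| := abs_nonneg z
  have hS0 : 0 ≤ S := by linarith
  have hle : |S * c - z| < ((k + 2).factorial : ℤ) := by
    calc |S * c - z| ≤ |S * c| + |z| := abs_sub _ _
      _ = S * |c| + |z| := by rw [abs_mul, abs_of_nonneg hS0]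
      _ < ((k + 2).factorial : ℤ) := by
        rw [hfac, hkz]
        nlinarith [mul_nonneg (abs_nonneg z) (show (0 : ℤ) ≤ ((k + 1).factorial : ℤ) - 1 by linarith),
          mul_le_mul_of_nonneg_right h1 (abs_nonneg c)]
  have hne : S * c - z ≠ 0 := by
    intro h0
    have h2 : |S * c| = |z| := by rw [sub_eq_zero.mp h0]
    rw [abs_mul, abs_of_nonneg hS0] at h2
    nlinarith
  have := Int.le_of_dvd (abs_pos.mpr hne) ((dvd_abs _ _).mpr hd)
  linarith

/-- A homomorphism `ℤ^ω → ℤ^I / (countable support)` that vanishes at the unit vectors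
vanishes at `(1, 1, 1, …)`. -/
theorem hom_zero (w : (ℕ → ℤ) →+ ((I → ℤ) ⧸ Cs I)) (hw : ∀ j : ℕ, w (Pi.single j 1) = 0) :
    w (fun _ => 1) = 0 := by
  classical
  have hfin : ∀ (m : ℕ) (x : ℕ → ℤ), (∀ n, m ≤ n → x n = 0) → w x = 0 := by
    intro m x hx
    have : x = ∑ j ∈ Finset.range m, (x j) • (Pi.single j 1 : ℕ → ℤ) := by
      funext n
      rw [Finset.sum_apply]
      by_cases hn : n < m
      · rw [Finset.sum_eq_single_of_mem n (Finset.mem_range.mpr hn)]
        · simp
        · intro j _ hj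
          simp [Pi.single_apply, hj.symm]
      · rw [hx n (by omega)]
        refine (Finset.sum_eq_zero fun j hj => ?_).symm
        have : n ≠ j := by have := Finset.mem_range.mp hj; omega
        simp [Pi.single_apply, this]
    rw [this, map_sum]
    refine Finset.sum_eq_zero fun j _ => ?_
    rw [map_zsmul, hw]; simp
  let S : ℕ → ℤ := fun n => ∑ j ∈ Finset.range n, (j.factorial : ℤ)
  obtain ⟨y, hy⟩ := QuotientAddGroup.mk_surjective (w (fun _ => 1))
  obtain ⟨y', hy'⟩ := QuotientAddGroup.mk_surjective (w S)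
  have hbad : ∀ m : ℕ, {β : I | ¬ ((m.factorial : ℤ) ∣ S m * y β - y' β)}.Countable := by
    intro m
    have h1 : ∀ n, ∃ b : ℤ, m ≤ n → S n - S m = m.factorial * b := by
      intro n
      by_cases hn : m ≤ n
      · have : (m.factorial : ℤ) ∣ S n - S m := by
          have h2 : S n - S m = ∑ j ∈ Finset.Ico m n, (j.factorial : ℤ) := by
            show (∑ j ∈ Finset.range n, (j.factorial : ℤ)) -
              (∑ j ∈ Finset.range m, (j.factorial : ℤ)) = _
            rw [← Finset.sum_range_add_sum_Ico _ hn]; ring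
          rw [h2]
          apply Finset.dvd_sum
          intro j hj
          exact_mod_cast Nat.factorial_dvd_factorial (Finset.mem_Ico.mp hj).1
        obtain ⟨b, hb⟩ := this
        exact ⟨b, fun _ => hb⟩
      · exact ⟨0, fun h => absurd h hn⟩
    choose b hb using h1
    have h2 : w (S - (S m) • (fun _ => (1 : ℤ)) - (m.factorial : ℤ) • b) = 0 := by
      apply hfin m
      intro n hn
      have := hb n hn
      simp only [Pi.sub_apply, Pi.smul_apply, smul_eq_mul, mul_one]
      linarith
    obtain ⟨u, hu⟩ := QuotientAddGroup.mk_surjective (w b)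
    rw [map_sub, map_sub, map_zsmul, map_zsmul, ← hy, ← hy', ← hu, sub_eq_zero, sub_eq_iff_eq_add]
      at h2
    have h3 : (QuotientAddGroup.mk y' : (I → ℤ) ⧸ Cs I) =
        QuotientAddGroup.mk ((m.factorial : ℤ) • u + (S m) • y) := by
      rw [h2]; rfl
    rw [mk_eq_iff] at h3
    refine h3.mono ?_
    intro β hβ heq
    apply hβ
    rw [heq]
    refine ⟨- u β, ?_⟩
    simp
  have hbad' := Set.countable_iUnion hbad
  rw [← hy]
  have : (QuotientAddGroup.mk y : (I → ℤ) ⧸ Cs I) = QuotientAddGroup.mk 0 := by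
    rw [mk_eq_iff]
    refine hbad'.mono ?_
    intro β hβ
    have hβ' : y β ≠ 0 := hβ
    obtain ⟨m, hm⟩ := not_int (y β) (y' β) hβ'
    exact Set.mem_iUnion.mpr ⟨m, hm⟩
  rw [this]; rfl

/-- A countable group of functions that separates. -/
theorem exists_sep (hI : Cardinal.mk I = Cardinal.aleph 1) :
    ∃ (Q' : Type) (_ : AddCommGroup Q') (_ : Countable Q') (hat : Q' →+ (I → ℤ)), Sep hat := by
  classical
  have h1 : Cardinal.mk I ≤ Cardinal.mk (ℕ → Bool) := by
    rw [hI]
    have : Cardinal.mk (ℕ → Bool) = Cardinal.continuum := by simp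
    rw [this]
    exact Cardinal.aleph_one_le_continuum
  obtain ⟨x⟩ := Cardinal.le_def _ _ |>.mp h1
  let c : (Σ n : ℕ, (Fin n → Bool)) → I → ℤ :=
    fun t γ => if (fun i : Fin t.1 => x γ i) = t.2 then 1 else 0
  refine ⟨(Σ n : ℕ, (Fin n → Bool)) →₀ ℤ, inferInstance, inferInstance,
    (Finsupp.linearCombination ℤ c).toAddMonoidHom, ?_⟩
  intro F γ hγ z
  -- a level that separates `γ` from `F`
  obtain ⟨n, hn⟩ : ∃ n : ℕ, ∀ δ ∈ F, ∃ i < n, x δ i ≠ x γ i := by
    have h2 : ∀ δ ∈ F, ∃ i, x δ i ≠ x γ i := by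
      intro δ hδ
      by_contra hcon
      push Not at hcon
      have : x δ = x γ := funext hcon
      exact hγ (x.injective this ▸ hδ)
    choose! g hg using h2
    refine ⟨F.sup g + 1, fun δ hδ => ⟨g δ, Nat.lt_succ_of_le (Finset.le_sup hδ), hg δ hδ⟩⟩
  refine ⟨Finsupp.single ⟨n, fun i => x γ i⟩ z, ?_, ?_⟩
  · show (Finsupp.linearCombination ℤ c (Finsupp.single ⟨n, fun i => x γ i⟩ z)) γ = z
    rw [Finsupp.linearCombination_single]
    simp [c]
  · intro δ hδ
    show (Finsupp.linearCombination ℤ c (Finsupp.single ⟨n, fun i => x γ i⟩ z)) δ = 0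
    rw [Finsupp.linearCombination_single]
    obtain ⟨i, hi, hne⟩ := hn δ hδ
    have : ¬ ((fun i : Fin n => x δ i) = fun i : Fin n => x γ i) :=
      fun h => hne (congrFun h ⟨i, hi⟩)
    simp [c, this]

end Pool.Agent.K9h98.GM
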