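import Mathlib
import Pool.Agent.K9h98.GM.Lift
import Pool.Agent.Helper75.GS.P_final

set_option autoImplicit false

namespace Pool.Agent.K9h98.GM

open Pool.Agent.Helper75.GS

variable {I : Type}

/-- Every homomorphism `ℤ^I → ℤ^I / (countable support)` lifts to an endomorphism of `ℤ^I`. -/
theorem lift_all (hMA : MASigmaCentred) (hI : Cardinal.mk I = Cardinal.aleph 1)
    (T : (I → ℤ) →+ ((I → ℤ) ⧸ Cs I)) :
    ∃ φ : (I → ℤ) →+ (I → ℤ), ∀ f, T f = QuotientAddGroup.mk (φ f) := by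
  classical
  obtain ⟨Q, _, _, hat, hS⟩ := exists_sep (I := I) hI
  have hτ : ∀ q : Q, ∃ t : I → ℤ, T (hat q) = QuotientAddGroup.mk t := fun q => by
    obtain ⟨t, ht⟩ := QuotientAddGroup.mk_surjective (T (hat q))
    exact ⟨t, ht.symm⟩
  choose τ hτ using hτ
  have hfin := finite_rep hMA hI hat hS T τ hτ
  -- the coefficients
  have hco : ∀ β : I, ∃ (F : Finset I) (a : I → ℤ),
      ((∀ q q', τ (q + q') β = τ q β + τ q' β) ∧
      ∃ (F : Finset I) (a : I → ℤ), ∀ q, τ q β = ∑ γ ∈ F, a γ * hat q γ) →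
      ∀ q, τ q β = ∑ γ ∈ F, a γ * hat q γ := by
    intro β
    by_cases h : ((∀ q q', τ (q + q') β = τ q β + τ q' β) ∧
      ∃ (F : Finset I) (a : I → ℤ), ∀ q, τ q β = ∑ γ ∈ F, a γ * hat q γ)
    · obtain ⟨F, a, hFa⟩ := h.2
      exact ⟨F, a, fun _ => hFa⟩
    · exact ⟨∅, 0, fun h' => absurd h' h⟩
  choose F a hFa using hco
  let φ : (I → ℤ) →+ (I → ℤ) := AddMonoidHom.mk' (fun f β => ∑ γ ∈ F β, a β γ * f γ) (by
    intro f g
    funext β
    simp only [Pi.add_apply, mul_add, Finset.sum_add_distrib])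
  have hφ : ∀ f β, φ f β = ∑ γ ∈ F β, a β γ * f γ := fun _ _ => rfl
  let T' : (I → ℤ) →+ ((I → ℤ) ⧸ Cs I) := T - (QuotientAddGroup.mk' (Cs I)).comp φ
  have hT' : ∀ f, T' f = T f - QuotientAddGroup.mk (φ f) := fun _ => rfl
  have hzero : ∀ q : Q, T' (hat q) = 0 := by
    intro q
    rw [hT', hτ q, sub_eq_zero, mk_eq_iff]
    refine hfin.mono ?_
    intro β hβ hgood
    apply hβ
    rw [hφ]
    exact hFa β hgood q
  refine ⟨φ, fun f => ?_⟩
  rw [← sub_eq_zero, ← hT']
  obtain ⟨q, hq⟩ := every_sum hMA hI hat hS f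
  choose n hn1 hn2 using hq
  let w0 : (ℕ → ℤ) →+ (I → ℤ) :=
    AddMonoidHom.mk' (fun l γ => ∑ i ∈ Finset.range (n γ), l i * hat (q i) γ) (by
      intro l l'
      funext γ
      simp only [Pi.add_apply, add_mul, Finset.sum_add_distrib])
  have hw0 : ∀ l γ, w0 l γ = ∑ i ∈ Finset.range (n γ), l i * hat (q i) γ := fun _ _ => rfl
  have h1 := hom_zero (T'.comp w0) (by
    intro j
    have : w0 (Pi.single j 1) = hat (q j) := by
      funext γ
      rw [hw0]
      by_cases hj : j < n γ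
      · rw [Finset.sum_eq_single_of_mem j (Finset.mem_range.mpr hj)]
        · simp
        · intro i _ hij
          simp [hij]
      · rw [hn2 γ j (by omega)]
        refine Finset.sum_eq_zero fun i hi => ?_
        have : i ≠ j := by have := Finset.mem_range.mp hi; omega
        simp [this]
    rw [AddMonoidHom.comp_apply, this, hzero])
  rw [AddMonoidHom.comp_apply] at h1
  have h2 : w0 (fun _ => 1) = f := by
    funext γ
    rw [hw0, ← hn1 γ]
    simp
  rw [h2] at h1
  exact h1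

/-- Every homomorphism `ℤ^I → ℤ^I / (countable support)` lifts to an endomorphism of `ℤ^I`. -/
theorem lift_all' (hMA : MASigmaCentred) (hI : Cardinal.mk I = Cardinal.aleph 1)
    (C : AddSubgroup (I → ℤ)) (hC : C = Cs I)
    (T : (I → ℤ) →+ ((I → ℤ) ⧸ C)) :
    ∃ φ : (I → ℤ) →+ (I → ℤ), ∀ f, T f = QuotientAddGroup.mk (φ f) := by
  subst hC
  exact lift_all hMA hI T

theorem closure_eq : AddSubgroup.closure {f : I → ℤ | (Function.support f).Countable} = Cs I :=
  AddSubgroup.closure_eq (Cs I)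

theorem summands (hMA : MASigmaCentred) (hI : Cardinal.mk I = Cardinal.aleph 1)
    (A B : AddSubgroup ((I → ℤ) ⧸ AddSubgroup.closure {f : I → ℤ | (Function.support f).Countable}))
    (hAB : IsCompl A B) (hA : A ≠ ⊥) :
    Nonempty (A ≃+ ((I → ℤ) ⧸
      AddSubgroup.closure {f : I → ℤ | (Function.support f).Countable})) := by
  classical
  -- the projection
  have hex : ∀ g : (I → ℤ) ⧸ AddSubgroup.closure {f : I → ℤ | (Function.support f).Countable},
      ∃ a, a ∈ A ∧ g - a ∈ B := by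
    intro g
    have hg : g ∈ A ⊔ B := by rw [hAB.sup_eq_top]; exact AddSubgroup.mem_top g
    obtain ⟨a, ha, b, hb, hab⟩ := AddSubgroup.mem_sup.mp hg
    refine ⟨a, ha, ?_⟩
    rw [← hab]; simpa using hb
  choose e he1 he2 using hex
  have huniq : ∀ x, x ∈ A → x ∈ B → x = 0 := by
    intro x hx hx'
    have : x ∈ A ⊓ B := ⟨hx, hx'⟩
    rw [hAB.inf_eq_bot] at this
    exact AddSubgroup.mem_bot.mp this
  let T0 : ((I → ℤ) ⧸ AddSubgroup.closure {f : I → ℤ | (Function.support f).Countable}) →+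
      ((I → ℤ) ⧸ AddSubgroup.closure {f : I → ℤ | (Function.support f).Countable}) :=
    AddMonoidHom.mk' e (by
      intro x y
      rw [← sub_eq_zero]
      refine huniq _ (A.sub_mem (he1 _) (A.add_mem (he1 _) (he1 _))) ?_
      have : e (x + y) - (e x + e y) = (x - e x) + (y - e y) - (x + y - e (x + y)) := by abel
      rw [this]
      exact B.sub_mem (B.add_mem (he2 _) (he2 _)) (he2 _))
  obtain ⟨φ, hφ⟩ := lift_all' hMA hI _ closure_eq (T0.comp (QuotientAddGroup.mk' _))
  have hφ' : ∀ f : I → ℤ, e (QuotientAddGroup.mk f) = QuotientAddGroup.mk (φ f) := fun f => hφ f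
  refine final I hI A B hAB hA φ fun f => ⟨?_, ?_⟩
  · rw [← hφ']; exact he1 _
  · have : (QuotientAddGroup.mk (f - φ f) : (I → ℤ) ⧸
        AddSubgroup.closure {f : I → ℤ | (Function.support f).Countable}) =
        QuotientAddGroup.mk f - e (QuotientAddGroup.mk f) := by
      rw [hφ']; rfl
    rw [this]; exact he2 _

end Pool.Agent.K9h98.GM
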