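import Mathlib
import Pool.Agent.K9h98.GM.Main
import Pool.Agent.W684.FM.Ambient

set_option autoImplicit false

namespace Pool.Agent.K9h98.GM

open Pool.Agent.W684

/-- Martin's axiom for `ℵ₁` dense sets implies its `σ`-centred form. -/
theorem sigmaCentred_of_ma (h : MartinAxiomAleph1) : MASigmaCentred := by
  classical
  intro P _ _ c hc J D hJ hD
  have hccc : IsCCC P := by
    intro A hA
    have hinj : Set.InjOn c A := by
      intro p hp q hq hpq
      by_contra hne
      apply hA p hp q hq hne
      obtain ⟨r, hr⟩ := hc (c q) {p, q} (by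
        intro x hx
        simp only [Finset.mem_insert, Finset.mem_singleton] at hx
        rcases hx with rfl | rfl
        · exact hpq
        · rfl)
      exact ⟨r, hr p (by simp), hr q (by simp)⟩
    exact Set.countable_of_injective_of_countable_image hinj (Set.to_countable _)
  obtain ⟨G, h1, h2, h3, h4⟩ := h P hccc (Set.range D) (Cardinal.mk_range_le.trans hJ) (by
    rintro _ ⟨j, rfl⟩ p
    exact hD j p)
  exact ⟨G, h1, h2, h3, fun j => h4 _ ⟨j, rfl⟩⟩

end Pool.Agent.K9h98.GM
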